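import Pool.Agent.Helper81.BA.Main

/-!
# Bernoulli extensions of compact actions are realized on Cantor space

Every compact metrizable space with a continuous action of a countable group has a canonical
Bernoulli extension (the product with the Bernoulli shift when the action is free) which is
equivariantly Borel isomorphic to a continuous action on Cantor space.  Hence every equivalence
relation which is realized on the compact space and which absorbs the extension is realized on
Cantor space.
-/

set_option autoImplicit false

open Set Topology TopologicalSpace MeasureTheory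

namespace Pool.Agent.Results.MP_04fd10_lc.BernoulliExtension

/-- The equivalence relation `E` is realized by the action of `Γ` on the topological space `K`:
there is a Borel bijection from `X` to `K` carrying `E` to the orbit equivalence relation. -/
def RealizedBy (Γ : Type) [Group Γ] {X : Type} [MeasurableSpace X] (E : Setoid X) (K : Type)
    [TopologicalSpace K] [MulAction Γ K] : Prop :=
  ∃ f : X → K, Measurable[_, borel K] f ∧ Function.Bijective f ∧
    ∀ x y : X, E x y ↔ ∃ γ : Γ, f y = γ • f x

/-- The equivalence relation `E` absorbs the action of `Γ` on the topological space `L`: there is a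
Borel injection from `L` into `X` whose range is a union of classes of `E` and which carries the
orbit equivalence relation to the restriction of `E`. -/
def Absorbs (Γ : Type) [Group Γ] {X : Type} [MeasurableSpace X] (E : Setoid X) (L : Type)
    [TopologicalSpace L] [MulAction Γ L] : Prop :=
  ∃ j : L → X, Measurable[borel L, _] j ∧ Function.Injective j ∧
    (∀ p q : L, E (j p) (j q) ↔ ∃ γ : Γ, q = γ • p) ∧ ∀ (p : L) (y : X), E (j p) y → y ∈ range j

/-- The Bernoulli extension of the space `K` with an action of `Γ`: the pairs of a point `x` of `K`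
and a family of bits `w (n, g)`, for `n` in `ℕ` and `g` in `Γ`, such that `w (n, g) = w (n, h)` for
all `n` whenever `g` and `h` agree on a neighbourhood of `x`. -/
def Ber (Γ K : Type) [TopologicalSpace K] [Group Γ] [MulAction Γ K] : Type :=
  {p : K × (ℕ × Γ → Bool) //
    ∀ (n : ℕ) (g h : Γ), (∀ᶠ y in 𝓝 p.1, g • y = h • y) → p.2 (n, g) = p.2 (n, h)}

section action

variable {Γ K : Type} [TopologicalSpace K] [Group Γ] [MulAction Γ K]

instance : TopologicalSpace (Ber Γ K) := instTopologicalSpaceSubtype

variable [ContinuousConstSMul Γ K]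

/-- The action on the Bernoulli extension: `γ` sends `(x, w)` to `(γ x, (n, g) ↦ w (n, g γ))`. -/
instance : MulAction Γ (Ber Γ K) where
  smul γ p := ⟨(γ • p.1.1, fun q => p.1.2 (q.1, q.2 * γ)), by
    intro n g h hgh
    apply p.2
    have h1 : Filter.Tendsto (fun y : K => γ • y) (𝓝 p.1.1) (𝓝 (γ • p.1.1)) :=
      (continuous_const_smul γ).tendsto _
    filter_upwards [h1.eventually hgh] with y hy
    rw [mul_smul, mul_smul, hy]⟩
  one_smul p := by
    apply Subtype.ext
    change ((1 : Γ) • p.1.1, fun q : ℕ × Γ => p.1.2 (q.1, q.2 * 1)) = p.1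
    simp
  mul_smul g h p := by
    apply Subtype.ext
    change ((g * h) • p.1.1, fun q : ℕ × Γ => p.1.2 (q.1, q.2 * (g * h))) =
      (g • h • p.1.1, fun q : ℕ × Γ => p.1.2 (q.1, q.2 * g * h))
    simp [mul_smul, mul_assoc]

end action

/-- For every continuous action of a countable group `Γ` on a nonempty compact metrizable space
`K` there is a continuous action of `Γ` on Cantor space which is equivariantly Borel isomorphic to
the Bernoulli extension of `K`, and which realizes every equivalence relation which is realized on
`K` and absorbs the Bernoulli extension of `K`. -/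
theorem result (Γ : Type) [Group Γ] [Countable Γ] (K : Type) [TopologicalSpace K]
    [CompactSpace K] [MetrizableSpace K] [Nonempty K] [MulAction Γ K] [ContinuousConstSMul Γ K] :
    ∃ (_ : MulAction Γ (ℕ → Bool)) (_ : ContinuousConstSMul Γ (ℕ → Bool)),
      (∃ F : Ber Γ K → (ℕ → Bool), Measurable[borel (Ber Γ K), borel (ℕ → Bool)] F ∧
        Function.Bijective F ∧ ∀ (γ : Γ) (p : Ber Γ K), F (γ • p) = γ • F p) ∧
      ∀ (X : Type) [MeasurableSpace X] [StandardBorelSpace X] (E : Setoid X),
        RealizedBy Γ E K → Absorbs Γ E (Ber Γ K) → RealizedBy Γ E (ℕ → Bool) := by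
  let _ : MetricSpace K := metrizableSpaceMetric K
  let _ : MeasurableSpace K := borel K
  have _ : BorelSpace K := ⟨rfl⟩
  obtain ⟨a1, a2, F, hF1, hF2, hF3⟩ := Pool.Agent.Helper81.BA.main_iso (K := K) (Γ := Γ)
  have hborel : borel (Ber Γ K) =
      (inferInstance : MeasurableSpace (Pool.Agent.Helper81.BA.BSet Γ K)) := by
    exact (BorelSpace.measurable_eq (α := Pool.Agent.Helper81.BA.BSet Γ K)).symm
  have hborel2 : borel (ℕ → Bool) = (inferInstance : MeasurableSpace (ℕ → Bool)) :=
    (BorelSpace.measurable_eq (α := ℕ → Bool)).symm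
  refine ⟨a1, a2, ⟨F, ?_, hF2, hF3⟩, ?_⟩
  · rw [hborel, hborel2]
    exact hF1
  · rintro X _ _ E ⟨f, hf, hfb, hfE⟩ ⟨j, hj, hji, hjE, hjs⟩
    have hpol : PolishSpace (Pool.Agent.Helper81.BA.BSet Γ K) :=
      Pool.Agent.Helper81.BA.isClosed_bset.polishSpace
    have hne : Nonempty (Pool.Agent.Helper81.BA.BSet Γ K) := by
      obtain ⟨x⟩ := (inferInstance : Nonempty K)
      exact ⟨⟨(x, fun _ => false), fun _ _ _ _ => rfl⟩⟩
    let u : X → Pool.Agent.Helper81.BA.BSet Γ K := fun x =>
      ⟨(f x, fun _ => false), fun _ _ _ _ => rfl⟩
    have hu : ∀ (γ : Γ) (x y : X), f y = γ • f x ↔ u y = Pool.Agent.Helper81.BA.bact γ (u x) := by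
      intro γ x y
      constructor
      · intro h
        apply Subtype.ext
        exact Prod.ext h rfl
      · intro h
        exact congrArg (fun s : Pool.Agent.Helper81.BA.BSet Γ K => s.1.1) h
    obtain ⟨G, hG1, hG2, hG3⟩ := Pool.Agent.Helper81.BA.schroeder (ι := Unit) (Y := X)
      (Z := Pool.Agent.Helper81.BA.BSet Γ K)
      (fun _ x y => E x y) (fun _ s t => ∃ γ : Γ, t = Pool.Agent.Helper81.BA.bact γ s) u j
      (by
        apply Measurable.subtype_mk
        exact hf.prodMk measurable_const)
      (by
        rw [hborel] at hj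
        exact hj)
      (by
        intro x y h
        exact hfb.1 (congrArg (fun s : Pool.Agent.Helper81.BA.BSet Γ K => s.1.1) h))
      hji
      (by
        intro _ x y
        rw [hfE]
        exact exists_congr fun γ => hu γ x y)
      (by
        intro _ p q
        exact (hjE p q).symm)
      (by
        rintro _ p y (h | h)
        · exact hjs p y h
        · exact hjs p y (E.symm' h))
      (by
        rintro _ x s (⟨γ, h⟩ | ⟨γ, h⟩)
        · obtain ⟨y, hy⟩ := hfb.2 (γ • f x)
          exact ⟨y, by rw [h]; exact (hu γ x y).1 hy⟩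
        · obtain ⟨y, hy⟩ := hfb.2 (γ⁻¹ • f x)
          refine ⟨y, ?_⟩
          rw [(hu γ⁻¹ x y).1 hy, h, Pool.Agent.Helper81.BA.bact_inv])
    refine ⟨fun x => F (G x), ?_, hF2.comp hG2, ?_⟩
    · rw [hborel2]
      exact hF1.comp hG1
    · intro x y
      rw [hG3 () x y]
      apply exists_congr
      intro γ
      rw [← hF3]
      exact hF2.1.eq_iff.symm

end Pool.Agent.Results.MP_04fd10_lc.BernoulliExtension
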