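import Mathlib

/-!
# Compact action realizations versus Cantor space realizations

A countable Borel equivalence relation which admits a compact action realization, but none whose
underlying space is Cantor space.
-/

open MeasureTheory TopologicalSpace

namespace Pool.Agent.Results.MP_04fd10_lc.CantorRealizationFails

/-- `E` is a countable Borel equivalence relation: a Borel subset of the square, with countable
classes. -/
def IsCBER {X : Type} [MeasurableSpace X] (E : Setoid X) : Prop :=
  MeasurableSet {p : X × X | E p.1 p.2} ∧ ∀ x : X, {y : X | E x y}.Countable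

/-- `E` admits an action realization on the topological space `K`: there are a countable
group `Γ`, a continuous action of `Γ` on `K` (each group element acts by a continuous map)
and a Borel bijection `f : X → K`, where `K` has its Borel sigma-algebra, such that `E` is the
pullback of the orbit equivalence relation along `f`. -/
def RealizedOn {X : Type} [MeasurableSpace X] (E : Setoid X) (K : Type)
    [TopologicalSpace K] : Prop :=
  ∃ (Γ : Type) (_ : Group Γ) (_ : Countable Γ) (_ : MulAction Γ K)
    (_ : ContinuousConstSMul Γ K) (f : X → K),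
    Measurable[_, borel K] f ∧ Function.Bijective f ∧
      ∀ x y : X, E x y ↔ ∃ γ : Γ, f y = γ • f x

/-- `E` admits a compact action realization: it is realized on some compact metrizable space. -/
def CompactlyRealized {X : Type} [MeasurableSpace X] (E : Setoid X) : Prop :=
  ∃ (K : Type) (_ : TopologicalSpace K) (_ : CompactSpace K) (_ : MetrizableSpace K),
    RealizedOn E K

/-- The underlying space of the example: Cantor space plus two isolated points. -/
def X₀ : Type := (ℕ → Bool) ⊕ Bool

instance : TopologicalSpace X₀ := inferInstanceAs (TopologicalSpace ((ℕ → Bool) ⊕ Bool))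

instance : CompactSpace X₀ := inferInstanceAs (CompactSpace ((ℕ → Bool) ⊕ Bool))

instance : MetrizableSpace X₀ := inferInstanceAs (MetrizableSpace ((ℕ → Bool) ⊕ Bool))

instance : SecondCountableTopology X₀ :=
  inferInstanceAs (SecondCountableTopology ((ℕ → Bool) ⊕ Bool))

instance : PolishSpace X₀ := by
  let _ : MetricSpace X₀ := metrizableSpaceMetric X₀
  infer_instance

instance : MeasurableSpace X₀ := borel X₀

instance : BorelSpace X₀ := ⟨rfl⟩

lemma uncountable_X₀ : Uncountable X₀ := by
  have h : Uncountable (ℕ → Bool) := by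
    rw [← Cardinal.aleph0_lt_mk_iff]
    simpa using Cardinal.cantor Cardinal.aleph0
  exact (Sum.inl_injective (α := ℕ → Bool) (β := Bool)).uncountable

/-- The set of the two isolated points. -/
def P₀ : Set X₀ := Set.range (Sum.inr : Bool → (ℕ → Bool) ⊕ Bool)

lemma finite_P₀ : P₀.Finite := Set.finite_range _

/-- The example: the two extra points are equivalent, all other classes are singletons. -/
def E₀ : Setoid X₀ where
  r x y := x = y ∨ (x ∈ P₀ ∧ y ∈ P₀)
  iseqv := by
    refine ⟨fun x => Or.inl rfl, ?_, ?_⟩
    · rintro x y (h | ⟨h1, h2⟩)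
      · exact Or.inl h.symm
      · exact Or.inr ⟨h2, h1⟩
    · rintro x y z (h | ⟨h1, h2⟩) (h' | ⟨h1', h2'⟩)
      · exact Or.inl (h.trans h')
      · subst h; exact Or.inr ⟨h1', h2'⟩
      · subst h'; exact Or.inr ⟨h1, h2⟩
      · exact Or.inr ⟨h1, h2'⟩

lemma e0_iff (x y : X₀) : E₀ x y ↔ (x = y ∨ (x ∈ P₀ ∧ y ∈ P₀)) := Iff.rfl

lemma isCBER_E₀ : IsCBER E₀ := by
  constructor
  · have : {p : X₀ × X₀ | E₀ p.1 p.2} = {p : X₀ × X₀ | p.1 = p.2} ∪ (P₀ ×ˢ P₀) := by
      ext ⟨x, y⟩
      simp [e0_iff]
    rw [this]
    exact (measurableSet_eq_fun measurable_fst measurable_snd).union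
      (finite_P₀.measurableSet.prod finite_P₀.measurableSet)
  · intro x
    have : {y : X₀ | E₀ x y} ⊆ {x} ∪ P₀ := by
      rintro y (h | ⟨_, h2⟩)
      · left; exact h.symm
      · right; exact h2
    exact ((Set.countable_singleton x).union finite_P₀.countable).mono this

/-- The two-element group of permutations of the two extra points. -/
def G₀ : Type := Equiv.Perm Bool

instance : Group G₀ := inferInstanceAs (Group (Equiv.Perm Bool))

instance : Countable G₀ := inferInstanceAs (Countable (Equiv.Perm Bool))

/-- The group of permutations of the two extra points acts on the space. -/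
instance actX₀ : MulAction G₀ X₀ where
  smul g x := Sum.map id (fun b => (show Equiv.Perm Bool from g) b) x
  one_smul x := by cases x <;> rfl
  mul_smul g h x := by cases x <;> rfl

instance : ContinuousConstSMul G₀ X₀ where
  continuous_const_smul g := by
    change Continuous (fun x : (ℕ → Bool) ⊕ Bool =>
      Sum.map id (fun b => (show Equiv.Perm Bool from g) b) x)
    exact continuous_id.sumMap continuous_of_discreteTopology

lemma compactlyRealized_E₀ : CompactlyRealized E₀ := by
  refine ⟨X₀, inferInstance, inferInstance, inferInstance, G₀, inferInstance, inferInstance,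
    inferInstance, inferInstance, id, measurable_id, Function.bijective_id, ?_⟩
  intro x y
  constructor
  · rintro (h | ⟨⟨b, rfl⟩, ⟨c, rfl⟩⟩)
    · exact ⟨1, by simp [h]⟩
    · refine ⟨(Equiv.swap b c : Equiv.Perm Bool), ?_⟩
      change (Sum.inr c : (ℕ → Bool) ⊕ Bool) = Sum.inr ((Equiv.swap b c) b)
      simp
  · rintro ⟨g, hg⟩
    cases x with
    | inl a =>
      left
      exact hg.symm
    | inr b =>
      right
      exact ⟨⟨b, rfl⟩, ⟨_, hg.symm⟩⟩

/-- A nonempty open subset of Cantor space is not contained in a two-element set. -/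
lemma open_not_subset_pair {U : Set (ℕ → Bool)} (hU : IsOpen U) {z : ℕ → Bool} (hz : z ∈ U)
    (a b : ℕ → Bool) : ¬ U ⊆ {a, b} := by
  intro hsub
  -- the one-coordinate modifications of `z` converge to `z`
  have hlim : Filter.Tendsto (fun n : ℕ => Function.update z n (!(z n))) Filter.atTop (nhds z) := by
    rw [tendsto_pi_nhds]
    intro i
    apply tendsto_const_nhds.congr'
    filter_upwards [Filter.eventually_gt_atTop i] with n hn
    rw [Function.update_of_ne (by omega)]
  have hev := hlim.eventually (hU.mem_nhds hz)
  obtain ⟨N, hN⟩ := Filter.eventually_atTop.1 hev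
  have h0 : z ∈ ({a, b} : Set (ℕ → Bool)) := hsub hz
  have h1 : Function.update z N (!(z N)) ∈ ({a, b} : Set (ℕ → Bool)) := hsub (hN N le_rfl)
  have h2 : Function.update z (N+1) (!(z (N+1))) ∈ ({a, b} : Set (ℕ → Bool)) :=
    hsub (hN (N+1) (by omega))
  have e01 : z ≠ Function.update z N (!(z N)) := by
    intro h
    have := congrFun h N
    simp at this
  have e02 : z ≠ Function.update z (N+1) (!(z (N+1))) := by
    intro h
    have := congrFun h (N+1)
    simp at this
  have e12 : Function.update z N (!(z N)) ≠ Function.update z (N+1) (!(z (N+1))) := by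
    intro h
    have := congrFun h N
    rw [Function.update_self, Function.update_of_ne (by omega)] at this
    simp at this
  simp only [Set.mem_insert_iff, Set.mem_singleton_iff] at h0 h1 h2
  rcases h0 with h0 | h0 <;> rcases h1 with h1 | h1 <;> rcases h2 with h2 | h2
  · exact e01 (h0.trans h1.symm)
  · exact e01 (h0.trans h1.symm)
  · exact e02 (h0.trans h2.symm)
  · exact e12 (h1.trans h2.symm)
  · exact e12 (h1.trans h2.symm)
  · exact e02 (h0.trans h2.symm)
  · exact e01 (h0.trans h1.symm)
  · exact e01 (h0.trans h1.symm)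

lemma not_realizedOn_cantor : ¬ RealizedOn E₀ (ℕ → Bool) := by
  rintro ⟨Γ, _, _, _, _, f, -, ⟨hinj, hsurj⟩, hf⟩
  have hP : ∀ b : Bool, (show X₀ from (Sum.inr b : (ℕ → Bool) ⊕ Bool)) ∈ P₀ := fun b => ⟨b, rfl⟩
  obtain ⟨γ, hγ⟩ := (hf (show X₀ from (Sum.inr false : (ℕ → Bool) ⊕ Bool))
    (show X₀ from (Sum.inr true : (ℕ → Bool) ⊕ Bool))).1 (Or.inr ⟨hP _, hP _⟩)
  have hU : IsOpen {z : ℕ → Bool | γ • z ≠ z} :=
    isOpen_ne_fun (continuous_const_smul γ) continuous_id
  have hmem : f (show X₀ from (Sum.inr false : (ℕ → Bool) ⊕ Bool)) ∈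
      {z : ℕ → Bool | γ • z ≠ z} := by
    intro h
    rw [h] at hγ
    have := hinj hγ
    exact absurd (Sum.inr_injective this) (by decide)
  refine open_not_subset_pair hU hmem (f (show X₀ from (Sum.inr false : (ℕ → Bool) ⊕ Bool)))
    (f (show X₀ from (Sum.inr true : (ℕ → Bool) ⊕ Bool))) ?_
  intro z hz
  obtain ⟨x, rfl⟩ := hsurj z
  obtain ⟨y, hy⟩ := hsurj (γ • f x)
  have hE : E₀ x y := (hf x y).2 ⟨γ, hy⟩
  rcases hE with h | ⟨⟨b, rfl⟩, -⟩
  · exact absurd (show γ • f x = f x by rw [← hy, h]) hz
  · cases b
    · left; rfl
    · right; rfl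

/-- There is a countable Borel equivalence relation on an uncountable standard Borel space which
admits a compact action realization, but which admits no compact action realization whose
underlying space is Cantor space. -/
theorem result : ∃ (X : Type) (_ : MeasurableSpace X) (_ : StandardBorelSpace X)
    (_ : Uncountable X) (E : Setoid X),
    IsCBER E ∧ CompactlyRealized E ∧ ¬ RealizedOn E (ℕ → Bool) :=
  ⟨X₀, inferInstance, inferInstance, uncountable_X₀, E₀, isCBER_E₀, compactlyRealized_E₀,
    not_realizedOn_cantor⟩

end Pool.Agent.Results.MP_04fd10_lc.CantorRealizationFails
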