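import Pool.Agent.Helper43.CRF.Cut

/-!
# Cantor realizations and smooth boundaries

An aperiodic equivalence relation is realized on Cantor space by a countable group if and only if
the group realizes it on some compact metrizable space having enough open sets on whose boundaries
the orbit equivalence relation is smooth.
-/

set_option autoImplicit false

open Set Topology MeasureTheory TopologicalSpace

namespace Pool.Agent.Results.MP_04fd10_lc.CutCriterion

/-- The equivalence relation `E` is realized by the action of `Γ` on the topological space `K`:
there is a Borel bijection from `X` to `K` carrying `E` to the orbit equivalence relation. -/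
def RealizedBy (Γ : Type) [Group Γ] {X : Type} [MeasurableSpace X] (E : Setoid X) (K : Type)
    [TopologicalSpace K] [MulAction Γ K] : Prop :=
  ∃ f : X → K, Measurable[_, borel K] f ∧ Function.Bijective f ∧
    ∀ x y : X, E x y ↔ ∃ γ : Γ, f y = γ • f x

/-- Up to equality near `x`, only finitely many elements of `Γ` fix `x`. -/
def FiniteIsotropy (Γ : Type) [Group Γ] {K : Type} [TopologicalSpace K] [MulAction Γ K]
    (x : K) : Prop :=
  ∃ Φ : Set Γ, Φ.Finite ∧ ∀ g : Γ, g • x = x → ∃ h ∈ Φ, ∀ᶠ y in 𝓝 x, g • y = h • y

/-- The smooth boundary property: countably many open sets separate points, the orbit equivalence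
relation is smooth on their boundaries (some Borel set contains exactly one point of each orbit
meeting the boundary), and the points of the boundaries have finite isotropy. -/
def SmoothBoundaries (Γ : Type) [Group Γ] (K : Type) [TopologicalSpace K] [MulAction Γ K] :
    Prop :=
  ∃ U : ℕ → Set K, (∀ n, IsOpen (U n)) ∧
    (∀ x y : K, x ≠ y → ∃ n, x ∈ U n ∧ y ∉ closure (U n)) ∧
    (∀ n, ∃ T : Set K, MeasurableSet[borel K] T ∧
      ∀ x ∈ frontier (U n), ∃! t, t ∈ T ∧ t ∈ MulAction.orbit Γ x) ∧
    ∀ n, ∀ x ∈ frontier (U n), FiniteIsotropy Γ x

/-- An aperiodic equivalence relation on an uncountable standard Borel space is realized by a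
continuous action of the countable group `Γ` on Cantor space if and only if `Γ` realizes it on some
compact metrizable space with the smooth boundary property. -/
theorem result {X : Type} [MeasurableSpace X] [StandardBorelSpace X] [Uncountable X]
    (E : Setoid X) (hE : ∀ x : X, {y : X | E x y}.Infinite)
    (Γ : Type) [Group Γ] [Countable Γ] :
    (∃ (_ : MulAction Γ (ℕ → Bool)) (_ : ContinuousConstSMul Γ (ℕ → Bool)),
      RealizedBy Γ E (ℕ → Bool)) ↔
    ∃ (K : Type) (_ : TopologicalSpace K) (_ : CompactSpace K) (_ : MetrizableSpace K)
      (_ : MulAction Γ K) (_ : ContinuousConstSMul Γ K),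
      RealizedBy Γ E K ∧ SmoothBoundaries Γ K :=
  Pool.Agent.Helper43.CRF.Cut.main E hE Γ

end Pool.Agent.Results.MP_04fd10_lc.CutCriterion
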